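import Pool.Agent.H297R2.ExpIndep

set_option autoImplicit false

/-!
# Explicit matrices with algebraically independent entries
-/

namespace Pool.Agent.W956.FF

open Polynomial

theorem irreducible_X_pow_sub_two {N : ℕ} (hN : 0 < N) : Irreducible (X ^ N - C 2 : ℚ[X]) := by
  have hm : (X ^ N - C 2 : ℤ[X]).Monic := monic_X_pow_sub_C 2 hN.ne'
  have h1 : Irreducible (X ^ N - C 2 : ℤ[X]) := by
    have hprime : (Ideal.span {(2 : ℤ)}).IsPrime := by
      rw [Ideal.span_singleton_prime (by norm_num)]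
      exact Int.prime_two
    have hdeg : (X ^ N - C 2 : ℤ[X]).natDegree = N := natDegree_X_pow_sub_C
    refine irreducible_of_eisenstein_criterion hprime ?_ ?_ ?_ ?_ hm.isPrimitive
    · rw [hm.leadingCoeff, Ideal.mem_span_singleton]
      norm_num
    · intro n hn
      rw [degree_eq_natDegree hm.ne_zero, hdeg] at hn
      have hn' : n < N := by exact_mod_cast hn
      rw [Ideal.mem_span_singleton, coeff_sub, coeff_X_pow, if_neg hn'.ne, coeff_C]
      split_ifs <;> norm_num
    · rw [degree_eq_natDegree hm.ne_zero, hdeg]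
      exact_mod_cast hN
    · rw [Ideal.span_singleton_pow, Ideal.mem_span_singleton, coeff_sub, coeff_X_pow,
        if_neg hN.ne, coeff_C_zero]
      norm_num
  have h2 := (hm.irreducible_iff_irreducible_map_fraction_map (K := ℚ)).1 h1
  have h3 : (X ^ N - C 2 : ℤ[X]).map (algebraMap ℤ ℚ) = (X ^ N - C 2 : ℚ[X]) := by
    rw [Polynomial.map_sub, Polynomial.map_pow, map_X, map_C]
    simp
  rwa [h3] at h2

/-- the `N`-th root of 2 -/
noncomputable def rt (N : ℕ) : ℂ := (((2 : ℝ) ^ (1 / (N : ℝ)) : ℝ) : ℂ)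

theorem rt_pow {N : ℕ} (hN : 0 < N) : rt N ^ N = 2 := by
  have hN0 : (N : ℝ) ≠ 0 := by exact_mod_cast hN.ne'
  rw [rt, ← Complex.ofReal_pow, ← Real.rpow_natCast, ← Real.rpow_mul (by norm_num),
    one_div, inv_mul_cancel₀ hN0, Real.rpow_one]
  norm_num

theorem minpoly_rt {N : ℕ} (hN : 0 < N) : minpoly ℚ (rt N) = X ^ N - C 2 := by
  refine (minpoly.eq_of_irreducible_of_monic (irreducible_X_pow_sub_two hN) ?_
    (monic_X_pow_sub_C 2 hN.ne')).symm
  rw [map_sub, map_pow, aeval_X, rt_pow hN, aeval_C]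
  simp

theorem natDegree_minpoly_rt {N : ℕ} (hN : 0 < N) : (minpoly ℚ (rt N)).natDegree = N := by
  rw [minpoly_rt hN]
  exact natDegree_X_pow_sub_C

theorem isAlgebraic_rt {N : ℕ} (hN : 0 < N) : IsAlgebraic ℚ (rt N) := by
  refine ⟨X ^ N - C 2, (monic_X_pow_sub_C 2 hN.ne').ne_zero, ?_⟩
  rw [map_sub, map_pow, aeval_X, rt_pow hN, aeval_C]
  simp

theorem linearIndependent_rt (N : ℕ) : LinearIndependent ℚ fun i : Fin N => rt N ^ (i : ℕ) := by
  rcases Nat.eq_zero_or_pos N with h | hN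
  · subst h
    exact linearIndependent_empty_type
  · have h1 := linearIndependent_pow (K := ℚ) (rt N)
    have h2 := natDegree_minpoly_rt hN
    exact h1.comp (fun i : Fin N => Fin.cast h2.symm i) (Fin.cast_injective _)

/-- The explicit real `n × n` matrix with the entries `exp (2 ^ ((n j + k) / n ^ 2))`,
`0 ≤ j, k < n`. -/
noncomputable def expMat (n : ℕ) : Matrix (Fin n) (Fin n) ℂ :=
  Matrix.of fun j k => ((Real.exp ((2 : ℝ) ^ (((n * j + k : ℕ) : ℝ) / (n : ℝ) ^ 2)) : ℝ) : ℂ)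

theorem expMat_apply (n : ℕ) (p : Fin n × Fin n) :
    expMat n p.1 p.2 = Complex.exp (rt (n * n) ^ ((finProdFinEquiv p : Fin (n * n)) : ℕ)) := by
  obtain ⟨j, k⟩ := p
  have hn : 0 < n := j.pos
  show ((Real.exp ((2 : ℝ) ^ (((n * j + k : ℕ) : ℝ) / (n : ℝ) ^ 2)) : ℝ) : ℂ) = _
  rw [Complex.ofReal_exp]
  congr 1
  rw [rt, ← Complex.ofReal_pow]
  congr 1
  rw [← Real.rpow_natCast ((2 : ℝ) ^ (1 / ((n * n : ℕ) : ℝ))), ← Real.rpow_mul (by norm_num)]
  congr 1
  have h1 : ((finProdFinEquiv (j, k) : Fin (n * n)) : ℕ) = n * j + k := by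
    simp [finProdFinEquiv, add_comm]
  rw [h1]
  push_cast
  ring

theorem algebraicIndependent_expMat (n : ℕ) :
    AlgebraicIndependent ℚ fun p : Fin n × Fin n => expMat n p.1 p.2 := by
  have hli : LinearIndependent ℚ fun p : Fin n × Fin n =>
      rt (n * n) ^ ((finProdFinEquiv p : Fin (n * n)) : ℕ) :=
    (linearIndependent_rt (n * n)).comp _ finProdFinEquiv.injective
  have halg : ∀ p : Fin n × Fin n,
      IsAlgebraic ℚ (rt (n * n) ^ ((finProdFinEquiv p : Fin (n * n)) : ℕ)) := by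
    intro p
    have hn : 0 < n := p.1.pos
    exact (isAlgebraic_rt (Nat.mul_pos hn hn)).pow _
  have h1 : AlgebraicIndependent (algebraicClosure ℚ ℂ) fun p : Fin n × Fin n =>
      expMat n p.1 p.2 := by
    rw [algebraicIndependent_iff]
    intro P hP
    have h2 := Pool.Agent.H297R2.exp_noRel P.totalDegree _ halg hli
    simp only [expMat_apply] at hP
    exact h2 P le_rfl hP
  exact h1.restrictScalars (R := ℚ) (algebraMap ℚ (algebraicClosure ℚ ℂ)).injective

end Pool.Agent.W956.FF
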